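import Pool.Agent.helper68.FY.Spec
import Pool.Agent.helper9.Tors.Divs

/-! Row `fy:INT`: the iteration for the integral relations (hypotheses `INA`, `QC`). -/

set_option autoImplicit false

namespace Pool.Agent.helper68.FY

open Finset

theorem INT_base (hQC : QC_stmt) (X : Type) (S : Finset X) (φ : X → V3) (G : ℕ) (hG : 1 ≤ G)
    (hds : ∀ x ∈ S, ds (φ x) ≠ 0) :
    cnt S (fun g x y => par (cp (φ y) g) (φ x)) G ≤ 50 * G ^ 2 * S.card ^ 2 := by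
  classical
  unfold cnt pc
  have h1 : ∀ g ∈ PB G, ((S ×ˢ S).filter fun w => par (cp (φ w.2) g) (φ w.1)).card =
      ∑ w ∈ S ×ˢ S, if par (cp (φ w.2) g) (φ w.1) then 1 else 0 := by
    intro g _
    rw [Finset.card_filter]
  have h2 : ∑ g ∈ PB G, ((S ×ˢ S).filter fun w => par (cp (φ w.2) g) (φ w.1)).card =
      ∑ w ∈ S ×ˢ S, ((PB G).filter fun g => par (cp (φ w.2) g) (φ w.1)).card := by
    rw [Finset.sum_congr rfl h1, Finset.sum_comm]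
    refine Finset.sum_congr rfl fun w _ => ?_
    rw [Finset.card_filter]
  have h3 : ∀ w ∈ S ×ˢ S, ((PB G).filter fun g => par (cp (φ w.2) g) (φ w.1)).card ≤ 50 * G ^ 2 := by
    intro w hw
    rw [Finset.mem_product] at hw
    refine hQC (φ w.1) (φ w.2) G hG (hds _ hw.1) (hds _ hw.2) _ ?_
    intro g hg
    rw [Finset.mem_filter] at hg
    exact hg
  have h4 := Finset.sum_le_sum h3
  rw [Finset.sum_const, Finset.card_product, smul_eq_mul] at h4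
  have h5 : S.card * S.card * (50 * G ^ 2) = 50 * G ^ 2 * S.card ^ 2 := by ring
  rw [← h5]
  exact h2.le.trans h4

/-- The bound after `k` steps. -/
def INT_P (k : ℕ) : Prop := ∀ δ : ℝ, 0 < δ → ∃ C : ℝ, 1 ≤ C ∧
  ∀ (X : Type) (S : Finset X) (φ : X → V3) (κ G : ℕ), 1 ≤ κ → 1 ≤ G → 1 ≤ S.card →
  (∀ x ∈ S, ds (φ x) ≠ 0) →
  (∀ x ∈ S, ∀ T : Finset X, T ⊆ S → (∀ y ∈ T, par (φ x) (φ y)) → T.card ≤ κ) →
  (cnt S (fun g x y => par (cp (φ y) g) (φ x)) G : ℝ) ≤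
    C * κ * ((G : ℝ) ^ δ * (S.card : ℝ) ^ ((1 / 2 : ℝ) ^ k)) * (G : ℝ) ^ 2 * S.card

theorem INT_P_zero (hQC : QC_stmt) : INT_P 0 := by
  intro δ hδ
  refine ⟨50, by norm_num, ?_⟩
  intro X S φ κ G hκ hG hS hds _
  have h := INT_base hQC X S φ G hG hds
  have h' : (cnt S (fun g x y => par (cp (φ y) g) (φ x)) G : ℝ) ≤ 50 * (G : ℝ) ^ 2 * (S.card : ℝ) ^ 2 := by
    exact_mod_cast h
  have hG1 : (1 : ℝ) ≤ G := by exact_mod_cast hG
  have hκ1 : (1 : ℝ) ≤ κ := by exact_mod_cast hκ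
  have hGd : (1 : ℝ) ≤ (G : ℝ) ^ δ := Real.one_le_rpow hG1 hδ.le
  have hS0 : (0 : ℝ) ≤ S.card := Nat.cast_nonneg _
  rw [pow_zero, Real.rpow_one]
  have e1 : (1 : ℝ) ≤ κ * (G : ℝ) ^ δ := by nlinarith
  have e2 : (0 : ℝ) ≤ 50 * (G : ℝ) ^ 2 * (S.card : ℝ) ^ 2 := by positivity
  calc (cnt S (fun g x y => par (cp (φ y) g) (φ x)) G : ℝ) ≤ 50 * (G : ℝ) ^ 2 * (S.card : ℝ) ^ 2 := h'
    _ ≤ (κ * (G : ℝ) ^ δ) * (50 * (G : ℝ) ^ 2 * (S.card : ℝ) ^ 2) := le_mul_of_one_le_left e2 e1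
    _ = 50 * κ * ((G : ℝ) ^ δ * (S.card : ℝ)) * (G : ℝ) ^ 2 * S.card := by ring

theorem INT_log (τ : ℝ) (hτ : 0 < τ) (m : ℕ) (hm : 1 ≤ m) :
    (1 : ℝ) + Nat.log 2 m ≤ (1 + 1 / (τ * Real.log 2)) * (m : ℝ) ^ τ := by
  have hl2 : 0 < Real.log 2 := Real.log_pos (by norm_num)
  have hm0 : (0 : ℝ) < m := by exact_mod_cast hm
  have hm1 : (1 : ℝ) ≤ m := by exact_mod_cast hm
  have h1 : (Nat.log 2 m : ℝ) * Real.log 2 ≤ Real.log m := by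
    have h : ((2 : ℝ)) ^ (Nat.log 2 m) ≤ m := by
      exact_mod_cast Nat.pow_log_le_self 2 (by omega)
    have h' := Real.log_le_log (by positivity) h
    rwa [Real.log_pow] at h'
  have h2 : Real.log m ≤ (m : ℝ) ^ τ / τ := Real.log_le_rpow_div hm0.le hτ
  have h3 : (1 : ℝ) ≤ (m : ℝ) ^ τ := Real.one_le_rpow hm1 hτ.le
  have h4 : (Nat.log 2 m : ℝ) ≤ (m : ℝ) ^ τ / τ / Real.log 2 := by
    rw [le_div_iff₀ hl2]
    exact h1.trans h2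
  have h5 : (1 + 1 / (τ * Real.log 2)) * (m : ℝ) ^ τ = (m : ℝ) ^ τ + (m : ℝ) ^ τ / τ / Real.log 2 := by
    field_simp
  rw [h5]
  linarith

theorem INT_P_succ (hINA : INA_stmt) (k : ℕ) (hk : INT_P k) : INT_P (k + 1) := by
  intro δ hδ
  obtain ⟨C, hC1, hC⟩ := hk (δ / 2) (by positivity)
  obtain ⟨E, hE0, hE⟩ := Pool.Agent.helper9.Tors.divisor_bound (δ / 10) (by positivity)
  set L0 : ℝ := 1 + 1 / (δ / 10 * Real.log 2) with hL0
  have hl2 : 0 < Real.log 2 := Real.log_pos (by norm_num)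
  have hL01 : 1 ≤ L0 := by
    rw [hL0]
    have : 0 ≤ 1 / (δ / 10 * Real.log 2) := by positivity
    linarith
  set K : ℝ := 6144 * C * (E * 4 ^ (δ / 10)) ^ 2 * (L0 * 2 ^ (δ / 10)) * 2 ^ (δ / 2) with hK
  have hK0 : 0 ≤ K := by rw [hK]; positivity
  refine ⟨1 + K, by linarith, ?_⟩
  intro X S φ κ G hκ hG hS hds hpar
  have hG1 : (1 : ℝ) ≤ G := by exact_mod_cast hG
  have hG0 : (0 : ℝ) < G := by linarith
  have hκ1 : (1 : ℝ) ≤ κ := by exact_mod_cast hκ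
  have hS1 : (1 : ℝ) ≤ S.card := by exact_mod_cast hS
  have hS0 : (0 : ℝ) < S.card := by linarith
  set N : ℝ := (S.card : ℝ) with hN
  set s : ℝ := C * κ * ((2 * (G : ℝ) * G) ^ (δ / 2) * N ^ ((1 / 2 : ℝ) ^ k)) with hs
  set D : ℕ := ⌊E * (4 * (G : ℝ) ^ 4) ^ (δ / 10)⌋₊ with hD
  have hDle : (D : ℝ) ≤ E * (4 * (G : ℝ) ^ 4) ^ (δ / 10) := Nat.floor_le (by positivity)
  have hdiv : ∀ n, 1 ≤ n → n ≤ 4 * G ^ 4 → n.divisors.card ≤ D := by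
    intro n hn hn'
    refine Nat.le_floor ?_
    refine (hE n (by omega)).trans ?_
    refine mul_le_mul_of_nonneg_left ?_ hE0.le
    refine Real.rpow_le_rpow (Nat.cast_nonneg _) ?_ (by positivity)
    exact_mod_cast hn'
  have hsmall : ∀ G' : ℕ, 1 ≤ G' → G' ≤ 2 * G * G →
      (cnt S (fun g x y => par (cp (φ y) g) (φ x)) G' : ℝ) ≤ s * (G' : ℝ) ^ 2 * S.card := by
    intro G' hG' hG''
    refine (hC X S φ κ G' hκ hG' hS hds hpar).trans ?_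
    have hle : (G' : ℝ) ≤ 2 * (G : ℝ) * G := by exact_mod_cast hG''
    have h1 : (G' : ℝ) ^ (δ / 2) ≤ (2 * (G : ℝ) * G) ^ (δ / 2) :=
      Real.rpow_le_rpow (Nat.cast_nonneg _) hle (by positivity)
    rw [hs]
    have h2 : (0 : ℝ) ≤ N ^ ((1 / 2 : ℝ) ^ k) := by positivity
    have h3 : (0 : ℝ) ≤ C * κ := by positivity
    have h4 := mul_le_mul_of_nonneg_left (mul_le_mul_of_nonneg_right h1 h2) h3
    exact mul_le_mul_of_nonneg_right (mul_le_mul_of_nonneg_right h4 (by positivity)) (by positivity)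
  have hmain := hINA X S φ κ G D s hG hdiv hds hpar hsmall
  have hlog := INT_log (δ / 10) (by positivity) (2 * G * G) (by nlinarith)
  rw [← hL0] at hlog
  push_cast at hlog
  -- powers
  have p1 : (4 * (G : ℝ) ^ 4) ^ (δ / 10) = 4 ^ (δ / 10) * (G : ℝ) ^ (4 * (δ / 10)) := by
    rw [Real.mul_rpow (by norm_num) (by positivity), ← Real.rpow_natCast (G : ℝ) 4,
      ← Real.rpow_mul hG0.le]
    norm_num
  have p2 : ∀ a : ℝ, (2 * (G : ℝ) * G) ^ a = 2 ^ a * (G : ℝ) ^ (2 * a) := by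
    intro a
    have : (2 * (G : ℝ) * G) = 2 * (G : ℝ) ^ 2 := by ring
    rw [this, Real.mul_rpow (by norm_num) (by positivity), ← Real.rpow_natCast (G : ℝ) 2,
      ← Real.rpow_mul hG0.le]
    norm_num
  have q1 : ((G : ℝ) ^ (4 * (δ / 10))) ^ 2 * (G : ℝ) ^ (2 * (δ / 10)) * (G : ℝ) ^ (2 * (δ / 2)) =
      ((G : ℝ) ^ δ) ^ 2 := by
    rw [← Real.rpow_natCast ((G : ℝ) ^ (4 * (δ / 10))) 2, ← Real.rpow_mul hG0.le,
      ← Real.rpow_natCast ((G : ℝ) ^ δ) 2, ← Real.rpow_mul hG0.le, ← Real.rpow_add hG0,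
      ← Real.rpow_add hG0]
    congr 1
    push_cast
    ring
  have q2 : N ^ ((1 / 2 : ℝ) ^ k) = (N ^ ((1 / 2 : ℝ) ^ (k + 1))) ^ 2 := by
    rw [← Real.rpow_natCast (N ^ ((1 / 2 : ℝ) ^ (k + 1))) 2, ← Real.rpow_mul hS0.le]
    congr 1
    push_cast
    rw [pow_succ]
    ring
  have hD2 : (D : ℝ) ^ 2 ≤ (E * (4 * (G : ℝ) ^ 4) ^ (δ / 10)) ^ 2 :=
    pow_le_pow_left₀ (Nat.cast_nonneg _) hDle 2
  have hs0 : 0 ≤ s := by rw [hs]; positivity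
  have hbound : 6144 * κ * (D : ℝ) ^ 2 * (1 + Nat.log 2 (2 * G * G)) * s * (G : ℝ) ^ 4 * N ^ 2 ≤
      K * (κ * ((G : ℝ) ^ δ * N ^ ((1 / 2 : ℝ) ^ (k + 1))) * (G : ℝ) ^ 2 * N) ^ 2 := by
    have hA : (D : ℝ) ^ 2 * (1 + Nat.log 2 (2 * G * G)) ≤
        (E * (4 * (G : ℝ) ^ 4) ^ (δ / 10)) ^ 2 * (L0 * (2 * (G : ℝ) * G) ^ (δ / 10)) :=
      mul_le_mul hD2 hlog (by positivity) (by positivity)
    have hB : 6144 * κ * (D : ℝ) ^ 2 * (1 + Nat.log 2 (2 * G * G)) * s * (G : ℝ) ^ 4 * N ^ 2 =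
        (6144 * κ * s * (G : ℝ) ^ 4 * N ^ 2) * ((D : ℝ) ^ 2 * (1 + Nat.log 2 (2 * G * G))) := by ring
    rw [hB]
    refine (mul_le_mul_of_nonneg_left hA (by positivity)).trans (le_of_eq ?_)
    rw [hs, p1, p2, p2, q2, hK]
    have : (6144 * (κ : ℝ) * (C * κ * (2 ^ (δ / 2) * (G : ℝ) ^ (2 * (δ / 2)) *
        (N ^ ((1 / 2 : ℝ) ^ (k + 1))) ^ 2)) * (G : ℝ) ^ 4 * N ^ 2) *
        ((E * (4 ^ (δ / 10) * (G : ℝ) ^ (4 * (δ / 10)))) ^ 2 *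
          (L0 * (2 ^ (δ / 10) * (G : ℝ) ^ (2 * (δ / 10))))) =
        6144 * C * (E * 4 ^ (δ / 10)) ^ 2 * (L0 * 2 ^ (δ / 10)) * 2 ^ (δ / 2) * ((κ : ℝ) ^ 2 *
        (((G : ℝ) ^ (4 * (δ / 10))) ^ 2 * (G : ℝ) ^ (2 * (δ / 10)) * (G : ℝ) ^ (2 * (δ / 2))) *
        (N ^ ((1 / 2 : ℝ) ^ (k + 1))) ^ 2 * ((G : ℝ) ^ 2) ^ 2 * N ^ 2) := by ring
    rw [this, q1]
    ring
  have hfin : (cnt S (fun g x y => par (cp (φ y) g) (φ x)) G : ℝ) ^ 2 ≤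
      ((1 + K) * (κ * ((G : ℝ) ^ δ * N ^ ((1 / 2 : ℝ) ^ (k + 1))) * (G : ℝ) ^ 2 * N)) ^ 2 := by
    refine hmain.trans (hbound.trans ?_)
    rw [mul_pow (1 + K)]
    refine mul_le_mul_of_nonneg_right ?_ (by positivity)
    nlinarith
  have h := abs_le_of_sq_le_sq hfin (by positivity)
  have h' := (abs_le.1 h).2
  refine h'.trans (le_of_eq ?_)
  ring

theorem INT_P_all (hINA : INA_stmt) (hQC : QC_stmt) (k : ℕ) : INT_P k := by
  induction k with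
  | zero => exact INT_P_zero hQC
  | succ k ih => exact INT_P_succ hINA k ih

theorem INT (hINA : INA_stmt) (hQC : QC_stmt) : INT_stmt := by
  intro ε hε
  obtain ⟨k, hk⟩ := exists_pow_lt_of_lt_one hε (by norm_num : (1 / 2 : ℝ) < 1)
  obtain ⟨C, hC1, hC⟩ := INT_P_all hINA hQC k ε hε
  refine ⟨C, hC1, ?_⟩
  intro X S φ κ G hκ hG hds hpar
  rcases Nat.eq_zero_or_pos S.card with h0 | hpos
  · have h := INT_base hQC X S φ G hG hds
    rw [h0] at h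
    have h1 : cnt S (fun g x y => par (cp (φ y) g) (φ x)) G = 0 := by
      simpa using h
    rw [h1, h0]
    simp
  · refine (hC X S φ κ G hκ hG hpos hds hpar).trans ?_
    have hS1 : (1 : ℝ) ≤ S.card := by exact_mod_cast hpos
    have hG0 : (0 : ℝ) ≤ G := Nat.cast_nonneg _
    have h1 : (S.card : ℝ) ^ ((1 / 2 : ℝ) ^ k) ≤ (S.card : ℝ) ^ ε :=
      Real.rpow_le_rpow_of_exponent_le hS1 hk.le
    have h2 : (G : ℝ) ^ ε * (S.card : ℝ) ^ ((1 / 2 : ℝ) ^ k) ≤ ((G : ℝ) * S.card) ^ ε := by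
      rw [Real.mul_rpow hG0 (by positivity)]
      exact mul_le_mul_of_nonneg_left h1 (by positivity)
    have h3 : (0 : ℝ) ≤ C * κ := by positivity
    exact mul_le_mul_of_nonneg_right (mul_le_mul_of_nonneg_right
      (mul_le_mul_of_nonneg_left h2 h3) (by positivity)) (by positivity)

end Pool.Agent.helper68.FY
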